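import Mathlib
import Pool.Agent.Helper9.AFLColor

set_option autoImplicit false

namespace Pool.Agent.Results.MP_67c961_co.BoundedChromatic

/-- The geometric realization of the complex `C(H)` of an `r`-uniform hypergraph `H` on `V`, in barycentric
coordinates indexed by the ordered `r`-tuples: a point is a probability vector on tuples whose support lies in
`W 0 × ... × W (r-1)` for pairwise disjoint `W j` on which `H` contains the complete `r`-partite subhypergraph. -/
def realization {V : Type} [Fintype V] [DecidableEq V] (r : ℕ) (H : Finset (Finset V)) :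
    Set ((Fin r → V) → ℝ) :=
  {x | (∀ f, 0 ≤ x f) ∧ (∑ f, x f) = 1 ∧
    ∃ W : Fin r → Finset V,
      (∀ i j, i ≠ j → Disjoint (W i) (W j)) ∧
      (∀ t : Fin r → V, (∀ j, t j ∈ W j) → Finset.univ.image t ∈ H) ∧
      (∀ f, x f ≠ 0 → ∀ j, f j ∈ W j)}

/-- `X` is `(N-1)`-connected: for every `m ≤ N`, every continuous map from the unit sphere of `ℝ^m` (which is
`S^(m-1)`) to `X` extends to a continuous map from the unit ball to `X` (for `m = 0`: `X` is nonempty). -/
def ConnUpTo {E : Type} [TopologicalSpace E] (N : ℕ) (X : Set E) : Prop :=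
  ∀ m : ℕ, m ≤ N →
    ∀ g : EuclideanSpace ℝ (Fin m) → E,
      ContinuousOn g (Metric.sphere (0 : EuclideanSpace ℝ (Fin m)) 1) →
      Set.MapsTo g (Metric.sphere (0 : EuclideanSpace ℝ (Fin m)) 1) X →
      ∃ h : EuclideanSpace ℝ (Fin m) → E,
        ContinuousOn h (Metric.closedBall (0 : EuclideanSpace ℝ (Fin m)) 1) ∧
        Set.MapsTo h (Metric.closedBall (0 : EuclideanSpace ℝ (Fin m)) 1) X ∧
        Set.EqOn h g (Metric.sphere (0 : EuclideanSpace ℝ (Fin m)) 1)

/-- There is a number `K` such that for every `N` there is a finite 6-uniform hypergraph `H` whose complex `C(H)`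
is `(N-1)`-connected and which has a proper colouring with `K` colours. -/
theorem result :
    ∃ K : ℕ, 1 ≤ K ∧ ∀ N : ℕ, ∃ (V : Type) (_ : Fintype V) (_ : DecidableEq V) (H : Finset (Finset V)),
      (∀ e ∈ H, e.card = 6) ∧
      ConnUpTo N (realization 6 H) ∧
      ∃ c : V → Fin K, ∀ e ∈ H, ∃ u ∈ e, ∃ v ∈ e, c u ≠ c v := by
  obtain ⟨Q, instQ, hΘ⟩ := Pool.Agent.Helper9.AFL.theta_exists
  obtain ⟨k, hk⟩ : ∃ k, k = Fintype.card (Option Q) := ⟨_, rfl⟩
  have hk1 : 1 ≤ k := by rw [hk, Fintype.card_option]; omega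
  refine ⟨k, hk1, fun N => ?_⟩
  obtain ⟨Θ, hc, he, hn⟩ := hΘ (N + 1)
  obtain ⟨M0, hM0⟩ := Pool.Agent.Helper9.AFL.exists_colouring (N + 1) Θ hc he hn
  obtain ⟨M, hM⟩ : ∃ M, M = M0 + (2 * (9 + 2 * Fintype.card
    (Pool.Agent.Helper9.AFL.Col (N + 1) (Equiv.Perm (Fin 6)))) + 2) := ⟨_, rfl⟩
  have hM1 : M0 ≤ M := by omega
  have hM2 : 2 * (9 + 2 * Fintype.card
    (Pool.Agent.Helper9.AFL.Col (N + 1) (Equiv.Perm (Fin 6)))) + 2 ≤ M := by omega
  obtain ⟨c, hcol⟩ := hM0 M hM1
  refine ⟨Pool.Agent.Helper9.AFL.VQ (N + 1) M, inferInstance, inferInstance,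
    Pool.Agent.Helper9.AFL.HH (N + 1) M,
    fun e heH => Pool.Agent.Helper9.AFL.HH_card (by omega) heH, ?_, ?_⟩
  · intro m hm g hg hgX
    exact Pool.Agent.Helper9.AFL.X_conn hM2 (by omega) g hg hgX
  · let eq : Option Q ≃ Fin k := (Fintype.equivFin (Option Q)).trans (finCongr hk.symm)
    refine ⟨fun v => eq (c v), fun e heH => ?_⟩
    obtain ⟨u, hu, v, hv, huv⟩ := hcol e heH
    exact ⟨u, hu, v, hv, fun h => huv (eq.injective h)⟩

end Pool.Agent.Results.MP_67c961_co.BoundedChromatic
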